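import Pool.Agent.X183.LinGrow.Sys

/-!
# A system of linear growth whose hyperspace map has zero entropy
-/

set_option autoImplicit false

open Pool.Agent.X183.LinGrow

namespace Pool.Agent.Results.MP_2aac2f_an.ZeroHyperspaceEntropy

/-- There are a compact metric space `X` and a continuous map `T : X → X` with `o(T) = [n]`
whose induced map on the space of non-empty compact subsets of `X`, with the Hausdorff metric, has
topological entropy zero. -/
theorem result :
    ∃ (X : Type) (_ : MetricSpace X) (_ : CompactSpace X) (T : X → X) (hT : Continuous T),
      HasLinearGrowth T ∧ topEntropy (hyper T hT) = 0 :=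
  ⟨Z × Z, inferInstance, inferInstance, T, continuous_T, linear_T, zero_hyper⟩

end Pool.Agent.Results.MP_2aac2f_an.ZeroHyperspaceEntropy
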